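import Mathlib
import Pool.Agent.Helper40.Lin.Defs
import Pool.Agent.Helper40.Free.FDefs
import Pool.Agent.Helper40.Conv.CDefs
import Pool.Agent.Helper40.QFree
import Pool.Agent.Helper40.Wiener7
import Pool.Agent.Helper40.Conv.Torus2

/-! # Assembly of the C*-part -/

open MeasureTheory Filter Topology
open scoped InnerProductSpace ComplexConjugate ArithmeticFunction.Moebius

set_option linter.unusedSectionVars false

namespace Pool.Agent.Helper77.Lin

open Pool.Agent.Helper40.Lin Pool.Agent.Helper40.Mob Pool.Agent.Helper40.Wiener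
open Pool.Agent.Helper40.QFree Pool.Agent.Helper40.Conv

universe u v

variable {A : Type u} [CStarAlgebra A] {G : Type v} [Group G]

theorem mainc_unit_scalar [Nontrivial A] {a b : A} (ha : a ∈ unitary A) (hb : b ∈ unitary A)
    {c : ℂ} (h : a = c • b) : ‖c‖ = 1 := by
  have h1 : ‖a‖ = 1 := CStarRing.norm_coe_unitary ⟨a, ha⟩
  have h2 : ‖b‖ = 1 := CStarRing.norm_coe_unitary ⟨b, hb⟩
  rw [h, norm_smul, h2, mul_one] at h1
  exact h1

theorem mainc_smul_flip [Nontrivial A] {a b : A} (ha : a ∈ unitary A) (hb : b ∈ unitary A)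
    {c : ℂ} (h : a = c • b) : b = conj c • a := by
  have h1 := mainc_unit_scalar ha hb h
  rw [h, smul_smul, Complex.conj_mul', h1]
  simp

theorem mainc_u_one [Nontrivial A] (u : G → unitary A)
    (hu : ∀ g h, ∃ c : ℂ, (u g : A) * (u h : A) = c • (u (g * h) : A)) :
    ∃ c : ℂ, (u 1 : A) = c • (1 : A) := by
  obtain ⟨c, hc⟩ := hu 1 1
  rw [mul_one] at hc
  refine ⟨c, ?_⟩
  have h1 : (u 1 : A) * star (u 1 : A) = 1 := (Unitary.mem_iff.1 (u 1).2).2
  calc (u 1 : A) = (u 1 : A) * (u 1 : A) * star (u 1 : A) := by rw [mul_assoc, h1, mul_one]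
    _ = _ := by rw [hc, smul_mul_assoc, h1]

theorem mainc_u_star [Nontrivial A] (u : G → unitary A)
    (hu : ∀ g h, ∃ c : ℂ, (u g : A) * (u h : A) = c • (u (g * h) : A)) (g : G) :
    ∃ c : ℂ, star (u g : A) = c • (u g⁻¹ : A) := by
  obtain ⟨c, hc⟩ := hu g g⁻¹
  obtain ⟨d, hd⟩ := mainc_u_one u hu
  rw [mul_inv_cancel, hd, smul_smul] at hc
  have h1 : star (u g : A) * (u g : A) = 1 := (Unitary.mem_iff.1 (u g).2).1
  have h2 : (u g⁻¹ : A) = (c * d) • star (u g : A) := by
    calc (u g⁻¹ : A) = star (u g : A) * ((u g : A) * (u g⁻¹ : A)) := by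
          rw [← mul_assoc, h1, one_mul]
      _ = _ := by rw [hc, mul_smul_comm, mul_one]
  exact ⟨conj (c * d), mainc_smul_flip (u g⁻¹).2 (Unitary.star_mem (u g).2) h2⟩

theorem mainc_iterate_u [Nontrivial A] (u : G → unitary A) (θ : G → G) (α : A →⋆ₐ[ℂ] A)
    (hα : ∀ g, ∃ c : ℂ, α (u g : A) = c • (u (θ g) : A)) (g : G) (n : ℕ) :
    ∃ c : ℂ, ‖c‖ = 1 ∧ α^[n] (u g : A) = c • (u (θ^[n] g) : A) := by
  induction n with
  | zero => exact ⟨1, by simp, by simp⟩
  | succ n ih =>
    obtain ⟨c, hc1, hc⟩ := ih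
    obtain ⟨d, hd⟩ := hα (θ^[n] g)
    have h1 : α^[n + 1] (u g : A) = (c * d) • (u (θ^[n + 1] g) : A) := by
      rw [Function.iterate_succ', Function.comp_apply, hc, map_smul, hd, smul_smul,
        Function.iterate_succ', Function.comp_apply]
    exact ⟨c * d, mainc_unit_scalar (iterate_unitary α (n + 1) (u g).2) (u _).2 h1, h1⟩

theorem mainc_mdiff_u [Nontrivial A] (u : G → unitary A)
    (hu : ∀ g h, ∃ c : ℂ, (u g : A) * (u h : A) = c • (u (g * h) : A))
    (θ : G → G) (α : A →⋆ₐ[ℂ] A) (hα : ∀ g, ∃ c : ℂ, α (u g : A) = c • (u (θ g) : A))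
    (M : ℕ) (g : G) (i : ℕ) :
    ∃ c : ℂ, (mdiff α M)^[i] (u g : A) = c • (u ((gdiff θ M)^[i] g) : A) := by
  induction i with
  | zero => exact ⟨1, by simp⟩
  | succ i ih =>
    obtain ⟨c, hc⟩ := ih
    set h := (gdiff θ M)^[i] g with hh
    obtain ⟨d, -, hd⟩ := mainc_iterate_u u θ α hα h M
    obtain ⟨e, he⟩ := mainc_u_star u hu h
    obtain ⟨f, hf⟩ := hu (θ^[M] h) h⁻¹
    have hsm : α^[M] (c • (u h : A)) = c • α^[M] (u h : A) := map_smul (iterL α M) c _
    refine ⟨c * conj c * d * e * f, ?_⟩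
    rw [Function.iterate_succ', Function.comp_apply, hc, mdiff, hsm, hd, star_smul, he,
      Function.iterate_succ', Function.comp_apply, ← hh, gdiff]
    simp only [smul_mul_smul_comm, smul_smul, hf]
    congr 1
    simp only [RCLike.star_def]
    ring

/-- assembly of the C*-part -/
theorem MAINC {A : Type u} [CStarAlgebra A] {G : Type v} [Group G]
    (U : G → unitary A) (hU : ∀ g h, ∃ c : ℂ, (U g : A) * (U h : A) = c • (U (g * h) : A))
    (τ : A →L[ℂ] ℂ) (hτ : IsState τ) (hτU : ∀ g, g ≠ 1 → τ (U g : A) = 0)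
    (hfaith : ∀ a, (∀ x y, τ (x * a * y) = 0) → a = 0)
    (hspan : ∀ a : A, a ∈ closure ((Submodule.span ℂ (Set.range fun g => (U g : A)) :
      Submodule ℂ A) : Set A))
    (θ : G → G) (α : A →⋆ₐ[ℂ] A) (hα : ∀ g, ∃ c : ℂ, α (U g : A) = c • (U (θ g) : A))
    (hdich : ∀ g : G,
      (∃ M : ℕ, 1 ≤ M ∧ ∃ k : ℕ, (∀ i j, 1 ≤ i → 1 ≤ j →
        Commute ((gdiff θ M)^[i] g) ((gdiff θ M)^[j] g)) ∧ (gdiff θ M)^[k] g = 1) ∨
      (∀ ρ : A →L[ℂ] ℂ, IsState ρ →
        Tendsto (fun N : ℕ => (∑ n ∈ Finset.range N, ‖ρ (α^[n] (U g : A))‖) / (N : ℝ)) atTop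
          (𝓝 0))) (a : A) :
    TwistedDisjoint α a := by
  classical
  have _hunused := hτU
  have _hunused2 := hfaith
  have hnt : Nontrivial A := by
    by_contra h
    rw [not_nontrivial_iff_subsingleton] at h
    have h1 : τ = 0 := by
      ext x
      rw [Subsingleton.elim x 0]
      simp
    have := hτ.2
    rw [h1, norm_zero] at this
    exact zero_ne_one this
  intro ρ hρ z₀ hz₀
  have hρb : ∀ x, ‖ρ x‖ ≤ ‖x‖ := fun x => by
    have := ρ.le_opNorm x
    rwa [hρ.2, one_mul] at this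
  let T : ℕ → A →ₗ[ℂ] ℂ := fun n => (ρ : A →ₗ[ℂ] ℂ) ∘ₗ iterL α n
  have hT : ∀ n x, ‖T n x‖ ≤ ‖x‖ := fun n x => (hρb _).trans (iterate_norm_le α n x)
  let w : ℕ → ℂ := fun n => (μ n : ℂ) * z₀ ^ n
  have hw : ∀ n, ‖w n‖ ≤ 1 := fun n => by
    simp only [w]
    rw [norm_mul, norm_pow, hz₀, one_pow, mul_one]
    exact norm_moebius n
  have hcl := goodL_closed T w hw hT
  have hle : (Submodule.span ℂ (Set.range fun g => (U g : A)) : Submodule ℂ A) ≤ goodL T w := by
    rw [Submodule.span_le]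
    rintro _ ⟨g, rfl⟩
    change Tendsto _ _ _
    rcases hdich g with h | h
    · obtain ⟨M', hM', k, hcom, hk⟩ := h
      obtain ⟨d, hd⟩ := mainc_u_one U hU
      -- the differences end in the scalars
      have hθ1 : ∃ e : ℂ, (mdiff α M')^[k + 1] (U g : A) = e • (1 : A) := by
        obtain ⟨c, hc⟩ := mainc_mdiff_u U hU θ α hα M' g k
        rw [hk, hd, smul_smul] at hc
        have h0 : (mdiff α M')^[k] (U g : A) ∈ unitary A := by
          have hall : ∀ i : ℕ, (mdiff α M')^[i] (U g : A) ∈ unitary A := by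
            intro i
            induction i with
            | zero => exact (U g).2
            | succ i ih =>
              rw [Function.iterate_succ', Function.comp_apply, mdiff]
              exact mul_mem (iterate_unitary α M' ih) (Unitary.star_mem ih)
          exact hall k
        refine ⟨1, ?_⟩
        rw [Function.iterate_succ', Function.comp_apply, mdiff, one_smul]
        have h1 : α^[M'] ((mdiff α M')^[k] (U g : A)) = (mdiff α M')^[k] (U g : A) := by
          rw [hc]
          have h2 : α^[M'] ((c * d) • (1 : A)) = (c * d) • α^[M'] (1 : A) :=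
            map_smul (iterL α M') _ _
          rw [h2, iterate_map_one]
        rw [h1]
        exact (Unitary.mem_iff.1 h0).2
      obtain ⟨e, he⟩ := hθ1
      have h1 := torus2 α (U g) M' hM' (fun i j hi hj => by
        obtain ⟨c1, hc1⟩ := mainc_mdiff_u U hU θ α hα M' g i
        obtain ⟨c2, hc2⟩ := mainc_mdiff_u U hU θ α hα M' g j
        obtain ⟨c3, hc3⟩ := hU ((gdiff θ M')^[i] g) ((gdiff θ M')^[j] g)
        obtain ⟨c4, hc4⟩ := hU ((gdiff θ M')^[j] g) ((gdiff θ M')^[i] g)
        have h5 := mainc_smul_flip (mul_mem (U _).2 (U _).2) (U _).2 hc4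
        refine ⟨c3 * conj c4, ?_⟩
        rw [hc1, hc2, smul_mul_smul_comm, smul_mul_smul_comm, hc3, (hcom i j hi hj).eq, h5]
        simp only [smul_smul]
        congr 1
        ring) k e he ρ hρ z₀ hz₀
      have h2 := range_of_Icc _ ‖(U g : A)‖ (fun n => by
        rw [norm_mul]
        calc _ ≤ 1 * ‖(U g : A)‖ := by
              gcongr
              · exact hw n
              · exact hT n _
          _ = _ := one_mul _) h1
      have h3 := h2.norm
      rw [norm_zero] at h3
      refine h3.congr fun N => ?_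
      rw [norm_div, Complex.norm_natCast]
      rfl
    · refine squeeze_zero (fun N => by positivity) (fun N => ?_) (h ρ hρ)
      gcongr
      refine (norm_sum_le _ _).trans (Finset.sum_le_sum fun n _ => ?_)
      rw [norm_smul]
      calc _ ≤ 1 * ‖ρ (α^[n] (U g : A))‖ := by
            gcongr
            · exact hw n
            · exact le_rfl
        _ = _ := one_mul _
  have hu' : Tendsto (fun N : ℕ => ‖∑ n ∈ Finset.range N, w n • T n a‖ / (N : ℝ))
    atTop (𝓝 0) := closure_minimal hle hcl (hspan a)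
  apply Icc_of_range _ ‖a‖
  · intro n
    rw [norm_mul]
    calc _ ≤ 1 * ‖a‖ := by
          gcongr
          · exact hw n
          · exact hT n a
      _ = _ := one_mul _
  · rw [tendsto_zero_iff_norm_tendsto_zero]
    refine hu'.congr fun N => ?_
    rw [norm_div, Complex.norm_natCast]
    rfl

end Pool.Agent.Helper77.Lin
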